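import Pool.Agent.Helper69.SW.St

/-! Project SW, module S4. -/

set_option autoImplicit false

open scoped BigOperators ENNReal Topology
open Pool.LE Pool.NL Pool.CL Pool.CB Filter

namespace Pool.SW

namespace S4M

theorem sB01 {d : ℕ} (n : ℕ) (x : Zd d) : 0 ≤ sB n x ∧ sB n x ≤ 1 := by
  unfold sB ind
  split_ifs <;> norm_num

theorem zt_pos {d : ℕ} (n : ℕ) (x : Zd d) : 0 < zt n x := by
  unfold zt
  have : 0 ≤ ∑ i, ((x i : ℝ) / n - 1 / 2) ^ 2 := Finset.sum_nonneg fun i _ => sq_nonneg _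
  positivity

theorem sqb {e a b : ℝ} (he : 0 < e) : (a + b) ^ 2 ≤ (1 + 1 / e) * a ^ 2 + (1 + e) * b ^ 2 := by
  have h : 0 ≤ (a / e - b) ^ 2 * e := by positivity
  have h2 : (a / e - b) ^ 2 * e = a ^ 2 / e - 2 * a * b + e * b ^ 2 := by
    field_simp
    ring
  have h3 : (1 + 1 / e) * a ^ 2 = a ^ 2 + a ^ 2 / e := by ring
  rw [h3]
  nlinarith

theorem step {d n : ℕ} {L : Finset (Zd d)} {V c θ θ₁ C e A B : ℝ} (hUU : StUU) (hTS : StTS)
    (hd : 1 ≤ d) (hn : 1 ≤ n) (hV : 0 < V) (hc : 0 < c) (hθ : 0 < θ) (hθ₁ : θ < θ₁) (he : 0 < e)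
    (h3 : ∀ x, TS L n c (sB n) x ≤ C * zt n x ∧ TS L n c (fun y => zt n y ^ 2) x ≤ C * zt n x)
    (hBd : Bd L n c V (sB n) θ₁)
    (hu : ∀ x, UU L n c V (sB n) θ x ≤ A * zt n x + B * UU L n c V (sB n) θ₁ x) (x : Zd d) :
    UU L n c V (sB n) θ x ≤ (θ * C + V / 2 * ((1 + 1 / e) * A ^ 2) * C) * zt n x +
      ((1 + e) * B ^ 2) * UU L n c V (sB n) θ₁ x := by
  obtain ⟨t1, t2, t3, t4, t5, t6⟩ := hTS d n L c hd hn hc
  obtain ⟨u1, u2, u3⟩ := hUU d n L c V (sB n) hd hn hc hV (fun y => (sB01 n y).1)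
  obtain ⟨hBdθ, -⟩ := u2 θ θ₁ hθ.le hθ₁.le hBd
  obtain ⟨v1, v2, v3, v4, v5⟩ := u3 θ hθ.le hBdθ
  obtain ⟨w1, w2, w3, w4, w5⟩ := u3 θ₁ (hθ.trans hθ₁).le hBd
  have hz := zt_pos n x
  have hC0 : 0 ≤ C := by
    have h := (h3 x).1
    have h' := t2 (sB n) (fun y _ => (sB01 n y).1) x
    by_contra hneg
    have : C * zt n x < 0 := mul_neg_of_neg_of_pos (not_le.mp hneg) hz
    linarith
  by_cases hx : x ∈ L
  · set u := UU L n c V (sB n) θ with hudef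
    set U := UU L n c V (sB n) θ₁ with hUdef
    rw [v4 x hx]
    have hmono : TS L n c (fun y => θ * sB n y + V / 2 * u y ^ 2) x ≤
        TS L n c (fun y => 1 * (fun y => θ * sB n y + (V / 2 * ((1 + 1 / e) * A ^ 2)) * zt n y ^ 2) y +
          ((1 + e) * B ^ 2) * (fun y => V / 2 * U y ^ 2) y) x := by
      refine t1 _ _ (fun y _ => ?_) x
      have h1 : u y ^ 2 ≤ (A * zt n y + B * U y) ^ 2 := pow_le_pow_left₀ (v1 y).1 (hu y) 2
      have h2 := sqb (a := A * zt n y) (b := B * U y) he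
      have h4 : V / 2 * u y ^ 2 ≤ V / 2 * ((1 + 1 / e) * (A * zt n y) ^ 2 + (1 + e) * (B * U y) ^ 2) :=
        mul_le_mul_of_nonneg_left (h1.trans h2) (by positivity)
      calc θ * sB n y + V / 2 * u y ^ 2 ≤ θ * sB n y +
            V / 2 * ((1 + 1 / e) * (A * zt n y) ^ 2 + (1 + e) * (B * U y) ^ 2) := by linarith
        _ = _ := by ring
    refine hmono.trans ?_
    rw [t4 1 ((1 + e) * B ^ 2), one_mul, t4 θ (V / 2 * ((1 + 1 / e) * A ^ 2))]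
    have h5 : TS L n c (fun y => V / 2 * U y ^ 2) x ≤ U x := by
      rw [w4 x hx]
      refine t1 _ _ (fun y _ => ?_) x
      have h6 : 0 ≤ θ₁ * sB n y := mul_nonneg (hθ.trans hθ₁).le (sB01 n y).1
      linarith
    have h7 : ((1 + e) * B ^ 2) * TS L n c (fun y => V / 2 * U y ^ 2) x ≤ ((1 + e) * B ^ 2) * U x :=
      mul_le_mul_of_nonneg_left h5 (by positivity)
    have h8 : θ * TS L n c (sB n) x ≤ θ * (C * zt n x) := mul_le_mul_of_nonneg_left (h3 x).1 hθ.le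
    have h9 : (V / 2 * ((1 + 1 / e) * A ^ 2)) * TS L n c (fun y => zt n y ^ 2) x ≤
        (V / 2 * ((1 + 1 / e) * A ^ 2)) * (C * zt n x) :=
      mul_le_mul_of_nonneg_left (h3 x).2 (by positivity)
    calc _ ≤ θ * (C * zt n x) + (V / 2 * ((1 + 1 / e) * A ^ 2)) * (C * zt n x) +
          ((1 + e) * B ^ 2) * U x := by linarith
      _ = _ := by ring
  · rw [(v1 x).2 hx]
    have h1 := (w1 x).1
    have h2 : 0 ≤ (θ * C + V / 2 * ((1 + 1 / e) * A ^ 2) * C) * zt n x := by positivity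
    have h4 : 0 ≤ ((1 + e) * B ^ 2) * UU L n c V (sB n) θ₁ x := by positivity
    linarith

end S4M

theorem hS4 (hS2 : StS2) (hS3 : StS3) (hUU : StUU) (hTS : StTS) : StS4 := by
  intro d V c θ θ₁ δ hd hV hc hθ hθ₁ hδ
  obtain ⟨K, ρ, hK, hρ0, hρ1, h2⟩ := hS2 V θ θ₁ hV hθ hθ₁
  obtain ⟨C, hC, n₀, hn₀, h3⟩ := hS3 d c hd hc
  obtain ⟨e, he, he1⟩ : ∃ e : ℝ, 0 < e ∧ (1 + e) * ρ < 1 := by
    refine ⟨(1 - ρ) / (2 * ρ), div_pos (by linarith) (by linarith), ?_⟩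
    have : (1 + (1 - ρ) / (2 * ρ)) * ρ = (1 + ρ) / 2 := by
      field_simp
      ring
    rw [this]
    linarith
  have hq0 : 0 < (1 + e) * ρ := by positivity
  have hd1 : 1 ≤ d := by omega
  have key : ∀ k : ℕ, ∃ C' : ℝ, 1 ≤ C' ∧ ∀ n : ℕ, n₀ ≤ n → ∀ L : Finset (Zd d),
      Bd L n c V (sB n) θ₁ → ∀ x, UU L n c V (sB n) θ x ≤ C' * zt n x +
        (ρ * ((1 + e) * ρ) ^ k) * UU L n c V (sB n) θ₁ x := by
    intro k
    induction k with
    | zero =>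
      refine ⟨1, le_rfl, fun n hn L hL x => ?_⟩
      have h := (h2 d n L c (sB n) hd1 (hn₀.trans hn) hc (S4M.sB01 n) hL x).2
      have hz := S4M.zt_pos n x
      rw [pow_zero, mul_one, one_mul]
      linarith
    | succ k ih =>
      obtain ⟨C', hC', ih⟩ := ih
      refine ⟨max 1 (θ * C + V / 2 * ((1 + 1 / e) * C' ^ 2) * C), le_max_left _ _,
        fun n hn L hL x => ?_⟩
      have hs := S4M.step hUU hTS hd1 (hn₀.trans hn) hV hc hθ hθ₁ he (h3 n hn L) hL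
        (ih n hn L hL) x
      obtain ⟨u1, u2, u3⟩ := hUU d n L c V (sB n) hd1 (hn₀.trans hn) hc hV (fun y => (S4M.sB01 n y).1)
      have hU0 := ((u3 θ₁ (hθ.trans hθ₁).le hL).1 x).1
      refine hs.trans (add_le_add (mul_le_mul_of_nonneg_right (le_max_right _ _)
        (S4M.zt_pos n x).le) (mul_le_mul_of_nonneg_right ?_ hU0))
      have hqk : ((1 + e) * ρ) ^ k ≤ 1 := pow_le_one₀ hq0.le he1.le
      have hqk0 : 0 ≤ ((1 + e) * ρ) ^ k := by positivity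
      calc (1 + e) * (ρ * ((1 + e) * ρ) ^ k) ^ 2
          = ρ * (((1 + e) * ρ) ^ k * ((1 + e) * ρ)) * ((1 + e) * ρ) ^ k := by ring
        _ ≤ ρ * (((1 + e) * ρ) ^ k * ((1 + e) * ρ)) * 1 :=
            mul_le_mul_of_nonneg_left hqk (by positivity)
        _ = ρ * ((1 + e) * ρ) ^ (k + 1) := by rw [mul_one, pow_succ]
  obtain ⟨k, hk⟩ := exists_pow_lt_of_lt_one hδ he1
  obtain ⟨C', hC', h⟩ := key k
  refine ⟨C', hC', n₀, hn₀, fun n hn L hL x => (h n hn L hL x).trans ?_⟩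
  obtain ⟨u1, u2, u3⟩ := hUU d n L c V (sB n) hd1 (hn₀.trans hn) hc hV (fun y => (S4M.sB01 n y).1)
  have hU0 := ((u3 θ₁ (hθ.trans hθ₁).le hL).1 x).1
  refine add_le_add le_rfl (mul_le_mul_of_nonneg_right ?_ hU0)
  have hqk0 : 0 ≤ ((1 + e) * ρ) ^ k := by positivity
  nlinarith

end Pool.SW
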